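import Pool.Agent.SFC.Defs

open Finset

namespace SFC

theorem ext_perm {W : Type} [Finite W] (φ ψ : W → W) :
    ∃ σ : Equiv.Perm W, ∀ w, ψ (φ w) = w → σ w = φ w := by
  classical
  have := Fintype.ofFinite W
  let e : {w // ψ (φ w) = w} ≃ {u // ∃ w, ψ (φ w) = w ∧ φ w = u} :=
    Equiv.ofBijective (fun w => ⟨φ w.1, w.1, w.2, rfl⟩) (by
      constructor
      · rintro ⟨a, ha⟩ ⟨b, hb⟩ h
        have h1 : φ a = φ b := congrArg Subtype.val h
        apply Subtype.ext
        show a = b
        rw [← ha, ← hb, h1]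
      · rintro ⟨u, w, hw, rfl⟩
        exact ⟨⟨w, hw⟩, rfl⟩)
  refine ⟨e.extendSubtype, fun w hw => ?_⟩
  rw [Equiv.extendSubtype_apply_of_mem e w hw]
  rfl

theorem dH_congr {n : ℕ} {W : Type} [Fintype W] [DecidableEq W] (e : W ≃ Fin n)
    (α β : Equiv.Perm W) : dH (e.permCongr α) (e.permCongr β) =
      ((univ.filter fun w => α w ≠ β w).card : ℝ) / n := by
  unfold dH
  congr 2
  refine Finset.card_equiv e.symm fun i => ?_
  simp

/-- Soficity from almost actions by maps. -/
theorem sofic_of_maps {G : Type} [Group G]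
    (H : ∀ (F : Finset G) (ε : ℝ), 0 < ε → ∃ (W : Type) (_ : Fintype W) (_ : Nonempty W)
      (f : G → W → W) (B : Finset W), (∀ w, w ∉ B → Good f F w) ∧
        (B.card : ℝ) ≤ ε * Fintype.card W) : Sofic G := by
  classical
  intro F ε hε
  let F' : Finset G := insert 1 (F ∪ F.image (fun g => g⁻¹) ∪ (F ×ˢ F).image fun p => p.1 * p.2)
  have hF1 : (1 : G) ∈ F' := by simp [F']
  have hF : ∀ g ∈ F, g ∈ F' := fun g hg => by simp [F', hg]
  have hFi : ∀ g ∈ F, g⁻¹ ∈ F' := fun g hg => by simp [F', hg]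
  have hFm : ∀ g ∈ F, ∀ h ∈ F, g * h ∈ F' := fun g hg h hh => by
    simp only [F', mem_insert, mem_union, mem_image, mem_product, Prod.exists]
    right; right
    exact ⟨g, h, ⟨hg, hh⟩, rfl⟩
  obtain ⟨W, _, hne, f, B, hB, hcard⟩ := H F' (min (ε / 2) (1 / 2)) (by positivity)
  have hW : 0 < Fintype.card W := Fintype.card_pos
  have hWr : (0 : ℝ) < Fintype.card W := by exact_mod_cast hW
  choose σ hσ using fun g : G => ext_perm (f g) (f g⁻¹)
  have e := Fintype.equivFin W
  -- on good points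
  have key : ∀ g ∈ F', ∀ w, w ∉ B → g⁻¹ ∈ F' → σ g w = f g w := by
    intro g hg w hw hgi
    obtain ⟨h1, h2, -⟩ := hB w hw
    apply hσ
    rw [h1 _ hgi _ hg, inv_mul_cancel, h2]
  have small : ∀ α β : Equiv.Perm W, (∀ w, w ∉ B → α w = β w) →
      dH (e.permCongr α) (e.permCongr β) < ε := by
    intro α β hab
    rw [dH_congr]
    have h1 : (univ.filter fun w => α w ≠ β w) ⊆ B := by
      intro w hw
      by_contra hwB
      exact (mem_filter.mp hw).2 (hab w hwB)
    have h2 : ((univ.filter fun w => α w ≠ β w).card : ℝ) ≤ B.card := by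
      exact_mod_cast card_le_card h1
    rw [div_lt_iff₀ hWr]
    have h3 : min (ε / 2) (1 / 2) * (Fintype.card W : ℝ) ≤ ε / 2 * Fintype.card W :=
      mul_le_mul_of_nonneg_right (min_le_left _ _) hWr.le
    nlinarith [mul_pos hε hWr]
  refine ⟨Fintype.card W, hW, fun g => e.permCongr (σ g), ?_, ?_, ?_⟩
  · intro g hg h hh hgh
    have hmul : e.permCongr (σ g) * e.permCongr (σ h) = e.permCongr (σ g * σ h) := by
      ext i; simp
    rw [hmul]
    apply small
    intro w hw
    have h0 := hB w hw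
    obtain ⟨h1, h2, -⟩ := h0
    rw [Equiv.Perm.mul_apply, key h (hF h hh) w hw (hFi h hh)]
    have h3 : σ g (f h w) = f g (f h w) := by
      apply hσ
      rw [h1 g (hF g hg) h (hF h hh), h1 g⁻¹ (hFi g hg) (g * h) (hFm g hg h hh),
        inv_mul_cancel_left]
    rw [h3, h1 g (hF g hg) h (hF h hh)]
    symm
    exact key (g * h) (hF _ hgh) w hw (hFi _ hgh)
  · intro h1F
    have h1 : (1 : Equiv.Perm (Fin (Fintype.card W))) = e.permCongr 1 := by
      ext i; simp
    rw [h1]
    apply small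
    intro w hw
    rw [key 1 hF1 w hw (hFi 1 h1F), (hB w hw).2.1]
    rfl
  · intro x hx y hy hxy
    rw [dH_congr]
    have h1 : Bᶜ ⊆ (univ.filter fun w => σ x w ≠ σ y w) := by
      intro w hw
      rw [mem_compl] at hw
      refine mem_filter.mpr ⟨mem_univ _, ?_⟩
      rw [key x (hF x hx) w hw (hFi x hx), key y (hF y hy) w hw (hFi y hy)]
      exact (hB w hw).2.2 x (hF x hx) y (hF y hy) hxy
    have h2 : ((Bᶜ : Finset W).card : ℝ) ≤ (univ.filter fun w => σ x w ≠ σ y w).card := by
      exact_mod_cast card_le_card h1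
    have h3 : ((Bᶜ : Finset W).card : ℝ) = Fintype.card W - B.card := by
      rw [card_compl, Nat.cast_sub (card_le_univ B)]
    have h4 : min (ε / 2) (1 / 2) * (Fintype.card W : ℝ) ≤ 1 / 2 * Fintype.card W :=
      mul_le_mul_of_nonneg_right (min_le_right _ _) hWr.le
    rw [le_div_iff₀ hWr]
    nlinarith

end SFC
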