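import Pool.Agent.SFC.A1

open Finset

namespace SFC

/-- tuples all of whose entries are in `A` -/
theorem card_all {n k : ℕ} (A : Finset (Fin n)) :
    (univ.filter fun v : Fin k → Fin n => ∀ i, v i ∈ A).card = A.card ^ k := by
  classical
  have : (univ.filter fun v : Fin k → Fin n => ∀ i, v i ∈ A) = Fintype.piFinset fun _ => A := by
    ext v; simp [Fintype.mem_piFinset]
  rw [this, Fintype.card_piFinset_const]

theorem card_ex {n k : ℕ} (hn : 0 < n) (D : Finset (Fin n)) {δ : ℝ} (hD : (D.card : ℝ) ≤ δ * n) :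
    ((univ.filter fun v : Fin k → Fin n => ∃ i, v i ∈ D).card : ℝ) ≤ k * δ * (n : ℝ) ^ k := by
  classical
  have h1 := Finset.card_filter_add_card_filter_not (s := (univ : Finset (Fin k → Fin n)))
    (fun v => ∃ i, v i ∈ D)
  have h2 : (univ.filter fun v : Fin k → Fin n => ¬ ∃ i, v i ∈ D).card = (Dᶜ).card ^ k := by
    rw [← card_all]
    congr 1
    ext v; simp
  rw [h2, card_univ, Fintype.card_pi, prod_const, card_univ, Fintype.card_fin,
    Fintype.card_fin] at h1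
  have h3 : ((Dᶜ).card : ℝ) = n - D.card := by
    rw [card_compl, Fintype.card_fin, Nat.cast_sub (by simpa using card_le_univ D)]
  have hnr : (0 : ℝ) < n := by exact_mod_cast hn
  have h4 : ((univ.filter fun v : Fin k → Fin n => ∃ i, v i ∈ D).card : ℝ) =
      (n : ℝ) ^ k - (n - D.card) ^ k := by
    rw [← h3]
    have : ((univ.filter fun v : Fin k → Fin n => ∃ i, v i ∈ D).card : ℝ) + ((Dᶜ).card : ℝ) ^ k =
        (n : ℝ) ^ k := by exact_mod_cast h1
    linarith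
  rw [h4]
  have hDn : (D.card : ℝ) ≤ n := by
    exact_mod_cast (by simpa using card_le_univ D)
  have h5 : 1 + (k : ℝ) * (-(D.card / n)) ≤ (1 + -(D.card / n : ℝ)) ^ k := by
    apply one_add_mul_le_pow
    have : (D.card : ℝ) / n ≤ 1 := by rw [div_le_one hnr]; exact hDn
    linarith
  have h6 : ((n : ℝ) - D.card) ^ k = (1 + -(D.card / n : ℝ)) ^ k * (n : ℝ) ^ k := by
    rw [← mul_pow]
    congr 1
    field_simp
    ring
  rw [h6]
  have h7 : (D.card : ℝ) / n ≤ δ := by rw [div_le_iff₀ hnr]; exact hD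
  have hk : (0 : ℝ) ≤ k := Nat.cast_nonneg k
  have h8 : (k : ℝ) * (D.card / n) ≤ k * δ := mul_le_mul_of_nonneg_left h7 hk
  have hnk : (0 : ℝ) < (n : ℝ) ^ k := pow_pos hnr k
  nlinarith

/-- Almost every point of a suitable finite set is good. -/
theorem Sofic.good {G : Type} [Group G] (hG : Sofic G) (F : Finset G) (ε : ℝ) (hε : 0 < ε) :
    ∃ (V : Type) (_ : Fintype V) (_ : Nonempty V) (θ : G → Equiv.Perm V) (B : Finset V),
      (∀ v, v ∉ B → Good (fun g => θ g) F v) ∧ (B.card : ℝ) ≤ ε * Fintype.card V := by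
  classical
  let F' : Finset G := insert 1 (F ∪ (F ×ˢ F).image fun p => p.1 * p.2)
  have hF1 : (1 : G) ∈ F' := by simp [F']
  have hF : ∀ g ∈ F, g ∈ F' := fun g hg => by simp [F', hg]
  have hFm : ∀ g ∈ F, ∀ h ∈ F, g * h ∈ F' := fun g hg h hh => by
    simp only [F', mem_insert, mem_union, mem_image, mem_product, Prod.exists]
    right; right
    exact ⟨g, h, ⟨hg, hh⟩, rfl⟩
  obtain ⟨m, hm⟩ : ∃ m : ℕ, m = F.card := ⟨_, rfl⟩
  -- choose `k`
  obtain ⟨k, hk⟩ : ∃ k : ℕ, ((m : ℝ) ^ 2 + 1) * (3 / 4 : ℝ) ^ k < ε / 2 := by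
    have h1 : (0 : ℝ) < (m : ℝ) ^ 2 + 1 := by positivity
    obtain ⟨k, hk⟩ := exists_pow_lt_of_lt_one (show (0 : ℝ) < ε / 2 / ((m : ℝ) ^ 2 + 1) by positivity)
      (show (3 / 4 : ℝ) < 1 by norm_num)
    refine ⟨k, ?_⟩
    rw [lt_div_iff₀ h1] at hk
    linarith
  -- choose `δ`
  obtain ⟨δ, hδ, hδ2⟩ : ∃ δ : ℝ, 0 < δ ∧ ((m : ℝ) ^ 2 + 1) * (k * δ) ≤ ε / 2 := by
    refine ⟨ε / 2 / (((m : ℝ) ^ 2 + 1) * (k + 1)), by positivity, ?_⟩
    have h1 : (0 : ℝ) < (m : ℝ) ^ 2 + 1 := by positivity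
    have h2 : (0 : ℝ) < (k : ℝ) + 1 := by positivity
    have h3 : ((m : ℝ) ^ 2 + 1) * (k * (ε / 2 / (((m : ℝ) ^ 2 + 1) * (k + 1)))) =
        ε / 2 * (k / (k + 1)) := by
      field_simp
    rw [h3]
    have h4 : (k : ℝ) / (k + 1) ≤ 1 := by rw [div_le_one h2]; linarith
    nlinarith
  obtain ⟨n, hn, θ, hθ1, hθ2, hθ3⟩ := hG F' δ hδ
  have hnr : (0 : ℝ) < n := by exact_mod_cast hn
  have : Nonempty (Fin n) := ⟨⟨0, hn⟩⟩
  let D : G → G → Finset (Fin n) := fun g h => univ.filter fun i => (θ g * θ h) i ≠ θ (g * h) i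
  let D1 : Finset (Fin n) := univ.filter fun i => θ 1 i ≠ (1 : Equiv.Perm (Fin n)) i
  let Q : G → G → Finset (Fin n) := fun x y => univ.filter fun i => θ x i = θ y i
  have hD : ∀ g ∈ F, ∀ h ∈ F, ((D g h).card : ℝ) ≤ δ * n := by
    intro g hg h hh
    have := hθ1 g (hF g hg) h (hF h hh) (hFm g hg h hh)
    unfold dH at this
    rw [div_lt_iff₀ hnr] at this
    exact this.le
  have hD1 : (D1.card : ℝ) ≤ δ * n := by
    have := hθ2 hF1
    unfold dH at this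
    rw [div_lt_iff₀ hnr] at this
    exact this.le
  have hQ : ∀ x ∈ F, ∀ y ∈ F, x ≠ y → ((Q x y).card : ℝ) ≤ 3 / 4 * n := by
    intro x hx y hy hxy
    have h1 := hθ3 x (hF x hx) y (hF y hy) hxy
    unfold dH at h1
    rw [le_div_iff₀ hnr] at h1
    have h2 := Finset.card_filter_add_card_filter_not (s := (univ : Finset (Fin n)))
      (fun i => θ x i = θ y i)
    rw [card_univ, Fintype.card_fin] at h2
    have h3 : ((Q x y).card : ℝ) + ((univ.filter fun i => ¬ θ x i = θ y i).card : ℝ) = n := by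
      exact_mod_cast h2
    have h4 : ((univ.filter fun i => θ x i ≠ θ y i).card : ℝ) =
        ((univ.filter fun i => ¬ θ x i = θ y i).card : ℝ) := rfl
    linarith
  let B1 : Finset (Fin k → Fin n) := (F ×ˢ F).biUnion fun p =>
    univ.filter fun v => ∃ i, v i ∈ D p.1 p.2
  let B2 : Finset (Fin k → Fin n) := univ.filter fun v => ∃ i, v i ∈ D1
  let B3 : Finset (Fin k → Fin n) := ((F ×ˢ F).filter fun p => p.1 ≠ p.2).biUnion fun p =>
    univ.filter fun v => ∀ i, v i ∈ Q p.1 p.2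
  refine ⟨Fin k → Fin n, inferInstance, inferInstance,
    fun g => Equiv.piCongrRight fun _ => θ g, B1 ∪ B2 ∪ B3, ?_, ?_⟩
  · intro v hv
    rw [mem_union, mem_union, not_or, not_or] at hv
    obtain ⟨⟨hv1, hv2⟩, hv3⟩ := hv
    refine ⟨?_, ?_, ?_⟩
    · intro g hg h hh
      funext i
      by_contra hne
      apply hv1
      refine mem_biUnion.mpr ⟨(g, h), mem_product.mpr ⟨hg, hh⟩, ?_⟩
      refine mem_filter.mpr ⟨mem_univ _, i, mem_filter.mpr ⟨mem_univ _, hne⟩⟩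
    · funext i
      by_contra hne
      apply hv2
      exact mem_filter.mpr ⟨mem_univ _, i, mem_filter.mpr ⟨mem_univ _, hne⟩⟩
    · intro x hx y hy hxy heq
      apply hv3
      refine mem_biUnion.mpr ⟨(x, y), mem_filter.mpr ⟨mem_product.mpr ⟨hx, hy⟩, hxy⟩, ?_⟩
      refine mem_filter.mpr ⟨mem_univ _, fun i => mem_filter.mpr ⟨mem_univ _, ?_⟩⟩
      exact congrFun heq i
  · have hV : (Fintype.card (Fin k → Fin n) : ℝ) = (n : ℝ) ^ k := by
      rw [Fintype.card_fun, Fintype.card_fin, Fintype.card_fin]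
      push_cast; rfl
    rw [hV]
    have hnk : (0 : ℝ) < (n : ℝ) ^ k := pow_pos hnr k
    have c1 : (B1.card : ℝ) ≤ (m : ℝ) ^ 2 * (k * δ * (n : ℝ) ^ k) := by
      have h1 : (B1.card : ℝ) ≤ ∑ p ∈ F ×ˢ F,
          ((univ.filter fun v : Fin k → Fin n => ∃ i, v i ∈ D p.1 p.2).card : ℝ) := by
        exact_mod_cast card_biUnion_le
      refine h1.trans ?_
      have h2 : ∑ p ∈ F ×ˢ F,
          ((univ.filter fun v : Fin k → Fin n => ∃ i, v i ∈ D p.1 p.2).card : ℝ) ≤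
          ∑ _p ∈ F ×ˢ F, (k * δ * (n : ℝ) ^ k) := by
        refine sum_le_sum fun p hp => ?_
        obtain ⟨hp1, hp2⟩ := mem_product.mp hp
        exact card_ex hn _ (hD _ hp1 _ hp2)
      refine h2.trans ?_
      rw [sum_const, card_product, nsmul_eq_mul, ← hm]
      push_cast
      rw [sq]
    have c2 : (B2.card : ℝ) ≤ k * δ * (n : ℝ) ^ k := card_ex hn _ hD1
    have c3 : (B3.card : ℝ) ≤ (m : ℝ) ^ 2 * ((3 / 4 : ℝ) ^ k * (n : ℝ) ^ k) := by
      have h1 : (B3.card : ℝ) ≤ ∑ p ∈ (F ×ˢ F).filter fun p => p.1 ≠ p.2,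
          ((univ.filter fun v : Fin k → Fin n => ∀ i, v i ∈ Q p.1 p.2).card : ℝ) := by
        exact_mod_cast card_biUnion_le
      refine h1.trans ?_
      have h2 : ∑ p ∈ (F ×ˢ F).filter fun p => p.1 ≠ p.2,
          ((univ.filter fun v : Fin k → Fin n => ∀ i, v i ∈ Q p.1 p.2).card : ℝ) ≤
          ∑ _p ∈ (F ×ˢ F).filter fun p => p.1 ≠ p.2, ((3 / 4 : ℝ) ^ k * (n : ℝ) ^ k) := by
        refine sum_le_sum fun p hp => ?_
        obtain ⟨hp0, hp3⟩ := mem_filter.mp hp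
        obtain ⟨hp1, hp2⟩ := mem_product.mp hp0
        rw [card_all, ← mul_pow]
        push_cast
        exact pow_le_pow_left₀ (Nat.cast_nonneg _) (hQ _ hp1 _ hp2 hp3) k
      refine h2.trans ?_
      rw [sum_const, nsmul_eq_mul]
      refine mul_le_mul_of_nonneg_right ?_ (by positivity)
      have h3 : ((F ×ˢ F).filter fun p => p.1 ≠ p.2).card ≤ m ^ 2 := by
        refine (card_filter_le _ _).trans ?_
        rw [card_product, hm, sq]
      exact_mod_cast h3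
    have c4 : ((B1 ∪ B2 ∪ B3).card : ℝ) ≤ B1.card + B2.card + B3.card := by
      have h1 := card_union_le (B1 ∪ B2) B3
      have h2 := card_union_le B1 B2
      exact_mod_cast h1.trans (Nat.add_le_add_right h2 _)
    have hk0 : (0 : ℝ) ≤ (3 / 4 : ℝ) ^ k := by positivity
    have e1 : (m : ℝ) ^ 2 * (k * δ * (n : ℝ) ^ k) + k * δ * (n : ℝ) ^ k =
        ((m : ℝ) ^ 2 + 1) * (k * δ) * (n : ℝ) ^ k := by ring
    have e2 : (m : ℝ) ^ 2 * ((3 / 4 : ℝ) ^ k * (n : ℝ) ^ k) ≤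
        ((m : ℝ) ^ 2 + 1) * (3 / 4 : ℝ) ^ k * (n : ℝ) ^ k := by nlinarith [mul_nonneg hk0 hnk.le]
    have e3 : ((m : ℝ) ^ 2 + 1) * (k * δ) * (n : ℝ) ^ k ≤ ε / 2 * (n : ℝ) ^ k :=
      mul_le_mul_of_nonneg_right hδ2 hnk.le
    have e4 : ((m : ℝ) ^ 2 + 1) * (3 / 4 : ℝ) ^ k * (n : ℝ) ^ k ≤ ε / 2 * (n : ℝ) ^ k :=
      mul_le_mul_of_nonneg_right hk.le hnk.le
    linarith

end SFC
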