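import Pool.Agent.SFC.A2

open Finset

namespace SFC

/-- **Quotients of sofic groups by finite normal subgroups are sofic.** -/
theorem Sofic.quot {E T : Type} [Group E] [Group T] (hE : Sofic E) (π : E →* T)
    (hπ : Function.Surjective π) (hker : Finite π.ker) : Sofic T := by
  classical
  choose s hs using hπ
  have := Fintype.ofFinite π.ker
  -- the kernel as a finset of `E`
  let N : Finset E := (univ : Finset π.ker).map ⟨Subtype.val, Subtype.val_injective⟩
  have hN : ∀ x, x ∈ N ↔ π x = 1 := by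
    intro x
    simp only [N, mem_map, mem_univ, true_and, Function.Embedding.coeFn_mk]
    constructor
    · rintro ⟨a, rfl⟩; exact a.2
    · intro hx; exact ⟨⟨x, hx⟩, rfl⟩
  have hN0 : 0 < N.card := card_pos.mpr ⟨1, (hN 1).mpr (map_one π)⟩
  have hNr : (0 : ℝ) < N.card := by exact_mod_cast hN0
  apply sofic_of_maps
  intro F ε hε
  let Bt : Finset T := insert 1 (F ∪ (F ×ˢ F).image fun p => p.1 * p.2)
  have hBt1 : (1 : T) ∈ Bt := by simp [Bt]
  have hBt : ∀ g ∈ F, g ∈ Bt := fun g hg => by simp [Bt, hg]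
  have hBtm : ∀ g ∈ F, ∀ h ∈ F, g * h ∈ Bt := fun g hg h hh => by
    simp only [Bt, mem_insert, mem_union, mem_image, mem_product, Prod.exists]
    right; right
    exact ⟨g, h, ⟨hg, hh⟩, rfl⟩
  let B : Finset E := (N ×ˢ Bt).image fun p => p.1 * s p.2
  have hB : ∀ x, x ∈ B ↔ π x ∈ Bt := by
    intro x
    simp only [B, mem_image, mem_product, Prod.exists]
    constructor
    · rintro ⟨a, b, ⟨ha, hb⟩, rfl⟩
      rw [map_mul, (hN a).mp ha, one_mul, hs]; exact hb
    · intro hx
      refine ⟨x * (s (π x))⁻¹, π x, ⟨?_, hx⟩, by simp⟩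
      rw [hN, map_mul, map_inv, hs, mul_inv_cancel]
  have hBN : ∀ n ∈ N, n ∈ B := fun n hn => (hB n).mpr (by rw [(hN n).mp hn]; exact hBt1)
  have hsB : ∀ t ∈ Bt, s t ∈ B := fun t ht => (hB _).mpr (by rw [hs]; exact ht)
  obtain ⟨b, hb⟩ : ∃ b : ℕ, b = B.card := ⟨_, rfl⟩
  obtain ⟨δ, hδ, hδ1, hδ2⟩ : ∃ δ : ℝ, 0 < δ ∧ δ ≤ 1 / 2 ∧ (b : ℝ) * δ ≤ ε / (2 * N.card) := by
    refine ⟨min (1 / 2) (ε / (2 * N.card) / (b + 1)), by positivity, min_le_left _ _, ?_⟩
    have h1 : (0 : ℝ) < (b : ℝ) + 1 := by positivity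
    have h2 : (b : ℝ) * min (1 / 2) (ε / (2 * N.card) / (b + 1)) ≤
        b * (ε / (2 * N.card) / (b + 1)) :=
      mul_le_mul_of_nonneg_left (min_le_right _ _) (Nat.cast_nonneg b)
    refine h2.trans ?_
    have h3 : (b : ℝ) * (ε / (2 * N.card) / (b + 1)) = ε / (2 * N.card) * (b / (b + 1)) := by ring
    rw [h3]
    have h4 : (b : ℝ) / (b + 1) ≤ 1 := by rw [div_le_one h1]; linarith
    have h5 : 0 < ε / (2 * (N.card : ℝ)) := by positivity
    nlinarith
  obtain ⟨V, _, hVne, θ, Z, hZ, hZc⟩ := hE.good B δ hδ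
  have hVr : (0 : ℝ) < Fintype.card V := by exact_mod_cast (Fintype.card_pos : 0 < Fintype.card V)
  -- orbits
  let O : V → Finset V := fun v => N.image fun n => θ n v
  let V0 : Finset V := Zᶜ
  have hV0 : ∀ v, v ∈ V0 → Good (fun g => θ g) B v := fun v hv => hZ v (mem_compl.mp hv)
  let V1 : Finset V := V0.filter fun v => ∀ x ∈ B, θ x v ∈ V0
  have memO : ∀ v ∈ V0, v ∈ O v := fun v hv =>
    mem_image.mpr ⟨1, (hN 1).mpr (map_one π), (hV0 v hv).2.1⟩
  -- orbits of translates
  have O_sub : ∀ v ∈ V0, ∀ x ∈ B, ∀ y ∈ B, π x = π y → O (θ x v) ⊆ O (θ y v) := by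
    intro v hv x hx y hy hxy w hw
    obtain ⟨n, hn, rfl⟩ := mem_image.mp hw
    have h1 := (hV0 v hv).1 n (hBN n hn) x hx
    refine mem_image.mpr ⟨n * x * y⁻¹, ?_, ?_⟩
    · rw [hN, map_mul, map_mul, map_inv, (hN n).mp hn, one_mul, hxy, mul_inv_cancel]
    · have h3 : n * x * y⁻¹ ∈ B := by
        rw [hB, map_mul, map_mul, map_inv, (hN n).mp hn, one_mul, hxy, mul_inv_cancel]; exact hBt1
      have h2 := (hV0 v hv).1 (n * x * y⁻¹) h3 y hy
      simp only at h1 h2
      rw [h1, h2, inv_mul_cancel_right]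
  have O_eq : ∀ v ∈ V0, ∀ x ∈ B, ∀ y ∈ B, π x = π y → O (θ x v) = O (θ y v) :=
    fun v hv x hx y hy hxy => subset_antisymm (O_sub v hv x hx y hy hxy)
      (O_sub v hv y hy x hx hxy.symm)
  let W : Finset (Finset V) := V0.image O
  have hrep : ∀ w : W, ∃ v, v ∈ V0 ∧ O v = w.1 := fun w => by
    obtain ⟨v, hv, h⟩ := mem_image.mp w.2
    exact ⟨v, hv, h⟩
  choose r hr0 hr using hrep
  have hr_inj : Function.Injective r := fun a b h => Subtype.ext (by rw [← hr a, ← hr b, h])
  let f : T → W → W := fun t w =>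
    if h : θ (s t) (r w) ∈ V0 then ⟨O (θ (s t) (r w)), mem_image_of_mem _ h⟩ else w
  have hf : ∀ t w, θ (s t) (r w) ∈ V0 → (f t w).1 = O (θ (s t) (r w)) := by
    intro t w h
    simp only [f, dif_pos h]
  -- cardinalities
  have c1 : (V0.card : ℝ) = Fintype.card V - Z.card := by
    show ((Zᶜ : Finset V).card : ℝ) = _
    rw [card_compl, Nat.cast_sub (card_le_univ Z)]
  have c2 : (1 / 2 : ℝ) * Fintype.card V ≤ V0.card := by
    rw [c1]
    nlinarith
  have c3 : V0.card ≤ N.card * W.card := by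
    refine card_le_mul_card_image V0 N.card fun a ha => ?_
    obtain ⟨v, hv, rfl⟩ := mem_image.mp ha
    have h1 : (V0.filter fun x => O x = O v) ⊆ O v := by
      intro x hx
      obtain ⟨hx1, hx2⟩ := mem_filter.mp hx
      rw [← hx2]; exact memO x hx1
    exact (card_le_card h1).trans card_image_le
  have c4 : (V0 \ V1).card ≤ b * Z.card := by
    have h1 : V0 \ V1 ⊆ B.biUnion fun x => univ.filter fun v => θ x v ∈ Z := by
      intro v hv
      obtain ⟨hv1, hv2⟩ := mem_sdiff.mp hv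
      have h2 : ¬ ∀ x ∈ B, θ x v ∈ V0 := fun h => hv2 (mem_filter.mpr ⟨hv1, h⟩)
      push Not at h2
      obtain ⟨x, hx, hx2⟩ := h2
      refine mem_biUnion.mpr ⟨x, hx, mem_filter.mpr ⟨mem_univ _, ?_⟩⟩
      by_contra h3
      exact hx2 (mem_compl.mpr h3)
    refine (card_le_card h1).trans (card_biUnion_le.trans ?_)
    have h2 : ∀ x ∈ B, (univ.filter fun v => θ x v ∈ Z).card ≤ Z.card := by
      intro x _
      refine (card_le_card_of_injOn (θ x) ?_ (θ x).injective.injOn)
      intro v hv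
      simpa using hv
    refine (sum_le_sum h2).trans ?_
    rw [sum_const, smul_eq_mul, ← hb]
  have hWne : Nonempty W := by
    have h1 : 0 < V0.card := by
      have : (0 : ℝ) < V0.card := lt_of_lt_of_le (by positivity) c2
      exact_mod_cast this
    obtain ⟨v, hv⟩ := card_pos.mp h1
    exact ⟨⟨O v, mem_image_of_mem _ hv⟩⟩
  refine ⟨W, inferInstance, hWne, f, univ.filter fun w => r w ∉ V1, ?_, ?_⟩
  · intro w hw
    have hv1 : r w ∈ V1 := by
      by_contra h
      exact hw (mem_filter.mpr ⟨mem_univ _, h⟩)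
    obtain ⟨hv0, hvB⟩ := mem_filter.mp hv1
    have hg0 := hV0 _ hv0
    have hfB : ∀ t ∈ Bt, (f t w).1 = O (θ (s t) (r w)) := fun t ht =>
      hf t w (hvB _ (hsB t ht))
    refine ⟨?_, ?_, ?_⟩
    · intro g hg h hh
      apply Subtype.ext
      rw [hfB _ (hBtm g hg h hh)]
      -- the representative of `f h w`
      have h1 : θ (s h) (r w) ∈ V0 := hvB _ (hsB h (hBt h hh))
      have h2 : r (f h w) ∈ O (θ (s h) (r w)) := by
        rw [← hfB h (hBt h hh), ← hr]; exact memO _ (hr0 _)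
      obtain ⟨n, hn, hn2⟩ := mem_image.mp h2
      have hnB : n * s h ∈ B := (hB _).mpr (by rw [map_mul, (hN n).mp hn, one_mul, hs]; exact hBt h hh)
      have h3 : r (f h w) = θ (n * s h) (r w) := by
        rw [← hn2]; exact hg0.1 n (hBN n hn) (s h) (hsB h (hBt h hh))
      have h4 : θ (s g) (r (f h w)) = θ (s g * (n * s h)) (r w) := by
        rw [h3]; exact hg0.1 (s g) (hsB g (hBt g hg)) (n * s h) hnB
      have hπ2 : π (s g * (n * s h)) = g * h := by
        rw [map_mul, map_mul, (hN n).mp hn, one_mul, hs, hs]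
      have h5 : s g * (n * s h) ∈ B := (hB _).mpr (by rw [hπ2]; exact hBtm g hg h hh)
      have h6 : θ (s g) (r (f h w)) ∈ V0 := by rw [h4]; exact hvB _ h5
      rw [hf g (f h w) h6, h4]
      exact O_eq _ hv0 _ h5 _ (hsB _ (hBtm g hg h hh)) (by rw [hπ2, hs])
    · apply Subtype.ext
      rw [hfB 1 hBt1, ← hr w]
      have h1 : O (θ (s 1) (r w)) = O (θ 1 (r w)) :=
        O_eq _ hv0 _ (hsB 1 hBt1) _ (hBN 1 ((hN 1).mpr (map_one π))) (by rw [hs, map_one])
      rw [h1]
      congr 1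
      exact hg0.2.1
    · intro x hx y hy hxy heq
      have h1 : O (θ (s x) (r w)) = O (θ (s y) (r w)) := by
        rw [← hfB x (hBt x hx), ← hfB y (hBt y hy), heq]
      have h2 : θ (s x) (r w) ∈ O (θ (s y) (r w)) := by
        rw [← h1]; exact memO _ (hvB _ (hsB x (hBt x hx)))
      obtain ⟨n, hn, hn2⟩ := mem_image.mp h2
      have hnB : n * s y ∈ B := (hB _).mpr (by rw [map_mul, (hN n).mp hn, one_mul, hs]; exact hBt y hy)
      have h3 : θ (n * s y) (r w) = θ (s x) (r w) := by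
        rw [← hn2]; exact (hg0.1 n (hBN n hn) (s y) (hsB y (hBt y hy))).symm
      by_cases h4 : s x = n * s y
      · apply hxy
        have := congrArg π h4
        rw [map_mul, (hN n).mp hn, one_mul, hs, hs] at this
        exact this
      · exact hg0.2.2 _ (hsB x (hBt x hx)) _ hnB h4 h3.symm
  · have h1 : (univ.filter fun w : W => r w ∉ V1).card ≤ (V0 \ V1).card := by
      refine card_le_card_of_injOn r ?_ hr_inj.injOn
      intro w hw
      have hw2 : r w ∉ V1 := by simpa using hw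
      exact mem_coe.mpr (mem_sdiff.mpr ⟨hr0 w, hw2⟩)
    have h2 : ((univ.filter fun w : W => r w ∉ V1).card : ℝ) ≤ b * Z.card := by
      exact_mod_cast h1.trans c4
    have h3 : (V0.card : ℝ) ≤ N.card * W.card := by exact_mod_cast c3
    rw [Fintype.card_coe]
    have hbr : (0 : ℝ) ≤ b := Nat.cast_nonneg b
    have h4 : (b : ℝ) * Z.card ≤ b * δ * Fintype.card V := by
      have := mul_le_mul_of_nonneg_left hZc hbr
      linarith
    have h5 : (b : ℝ) * δ * Fintype.card V ≤ ε / (2 * N.card) * Fintype.card V :=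
      mul_le_mul_of_nonneg_right hδ2 hVr.le
    have h6 : ε / (2 * N.card) * Fintype.card V ≤ ε / (2 * N.card) * (2 * (N.card * W.card)) := by
      apply mul_le_mul_of_nonneg_left _ (by positivity)
      linarith
    have h7 : ε / (2 * N.card) * (2 * (N.card * W.card)) = ε * W.card := by
      field_simp
    linarith

end SFC
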