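import Pool.Agent.SFC.A3

open Finset

namespace SFC

/-- Locally finite groups are sofic. -/
theorem sofic_of_locFin {G : Type} [Group G] (h : ∀ K : Subgroup G, K.FG → Finite K) :
    Sofic G := by
  classical
  apply sofic_of_maps
  intro F ε hε
  have hK : Finite (Subgroup.closure (F : Set G)) := h _ ⟨F, rfl⟩
  have := Fintype.ofFinite (Subgroup.closure (F : Set G))
  have hF : ∀ g ∈ F, g ∈ Subgroup.closure (F : Set G) := fun g hg => Subgroup.subset_closure hg
  refine ⟨Subgroup.closure (F : Set G), inferInstance, ⟨1⟩,
    fun g k => if hg : g ∈ Subgroup.closure (F : Set G) then ⟨g, hg⟩ * k else k, ∅, ?_, ?_⟩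
  · intro w _
    refine ⟨?_, ?_, ?_⟩
    · intro g hg h hh
      simp only [dif_pos (hF g hg), dif_pos (hF h hh), dif_pos (mul_mem (hF g hg) (hF h hh))]
      rw [← mul_assoc]
      rfl
    · have h1 : (1 : G) ∈ Subgroup.closure (F : Set G) := one_mem _
      simp only [dif_pos h1]
      exact one_mul w
    · intro x hx y hy hxy heq
      simp only [dif_pos (hF x hx), dif_pos (hF y hy)] at heq
      exact hxy (congrArg Subtype.val (mul_right_cancel heq))
  · simp only [card_empty, Nat.cast_zero]
    positivity

/-- A group with a central torsion kernel and finite image is finite if finitely generated. -/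
theorem finite_of_central {E T : Type} [Group E] [Group T] (π : E →* T)
    (hc : π.ker ≤ Subgroup.center E) (ht : ∀ x ∈ π.ker, IsOfFinOrder x) (K : Subgroup E)
    (hK : K.FG) (hfin : Finite (K.map π)) : Finite K := by
  classical
  have hKG : Group.FG K := (Group.fg_iff_subgroup_fg K).mpr hK
  let φ : K →* T := π.comp K.subtype
  have hr : Finite φ.range := by
    have : φ.range = K.map π := by
      simp only [φ, MonoidHom.range_comp, Subgroup.range_subtype]
    rw [this]; exact hfin
  have hq : Finite (K ⧸ φ.ker) := Finite.of_equiv _ (QuotientGroup.quotientKerEquivRange φ).symm.toEquiv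
  have hidx : φ.ker.FiniteIndex := Subgroup.finiteIndex_of_finite_quotient
  have hfg : Group.FG φ.ker := Subgroup.fg_of_index_ne_zero φ.ker
  have hmem : ∀ x : φ.ker, ((x : K) : E) ∈ π.ker := fun x => x.2
  let inst : CommGroup φ.ker :=
    { (inferInstance : Group φ.ker) with
      mul_comm := fun a b => by
        apply Subtype.ext; apply Subtype.ext
        exact ((Subgroup.mem_center_iff.mp (hc (hmem b))) _) }
  have htor : IsMulTorsion φ.ker := by
    intro x
    obtain ⟨n, hn, hx⟩ := isOfFinOrder_iff_pow_eq_one.mp (ht _ (hmem x))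
    refine isOfFinOrder_iff_pow_eq_one.mpr ⟨n, hn, ?_⟩
    apply Subtype.ext; apply Subtype.ext
    simpa using hx
  have hkf : Finite φ.ker := CommGroup.finite_of_fg_isMulTorsion φ.ker htor
  exact Finite.of_subgroup_quotient φ.ker

end SFC
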