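import Pool.Agent.SFC.A4

open Finset
open scoped commutatorElement

namespace SFC

/-- **Quotients of sofic groups by central torsion subgroups are sofic.** -/
theorem Sofic.central {E T : Type} [Group E] [Group T] (hE : Sofic E) (π : E →* T)
    (hπ : Function.Surjective π) (hc : π.ker ≤ Subgroup.center E)
    (ht : ∀ x ∈ π.ker, IsOfFinOrder x) : Sofic T := by
  classical
  choose s hs using hπ
  intro F ε hε
  let R : Finset E := insert (s 1) ((F ×ˢ F).image fun p => s p.1 * s p.2 * (s (p.1 * p.2))⁻¹)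
  have hR : (R : Set E) ⊆ π.ker := by
    intro x hx
    simp only [R, coe_insert, Set.mem_insert_iff, mem_coe, mem_image, mem_product,
      Prod.exists] at hx
    rw [SetLike.mem_coe, MonoidHom.mem_ker]
    rcases hx with rfl | ⟨a, b, -, rfl⟩
    · exact hs 1
    · rw [map_mul, map_mul, map_inv, hs, hs, hs, mul_inv_cancel]
  let N : Subgroup E := Subgroup.closure (R : Set E)
  have hNk : N ≤ π.ker := (Subgroup.closure_le _).mpr hR
  have hNn : N.Normal := ⟨fun n hn g => by
    have h1 := Subgroup.mem_center_iff.mp (hc (hNk hn)) g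
    rw [h1, mul_inv_cancel_right]; exact hn⟩
  have hNf : Finite N := by
    have hf : Finite (N.map π) := by
      have : N.map π = ⊥ := by
        rw [Subgroup.map_eq_bot_iff]; exact hNk
      rw [this]; infer_instance
    exact finite_of_central π hc ht N ⟨R, rfl⟩ hf
  have hQ : Sofic (E ⧸ N) := by
    refine hE.quot (QuotientGroup.mk' N) (QuotientGroup.mk'_surjective N) ?_
    rw [QuotientGroup.ker_mk']; exact hNf
  let q : T → E ⧸ N := fun t => (QuotientGroup.mk (s t) : E ⧸ N)
  have hq1 : q 1 = 1 := (QuotientGroup.eq_one_iff _).mpr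
    (Subgroup.subset_closure (by simp [R]))
  have hqm : ∀ g ∈ F, ∀ h ∈ F, q g * q h = q (g * h) := by
    intro g hg h hh
    show ((s g * s h : E) : E ⧸ N) = (s (g * h) : E)
    rw [← mul_inv_eq_one, ← QuotientGroup.mk_inv, ← QuotientGroup.mk_mul]
    refine (QuotientGroup.eq_one_iff _).mpr (Subgroup.subset_closure ?_)
    simp only [R, coe_insert, Set.mem_insert_iff, mem_coe, mem_image, mem_product, Prod.exists]
    right
    exact ⟨g, h, ⟨hg, hh⟩, rfl⟩
  have hqi : ∀ x y, q x = q y → x = y := by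
    intro x y h
    have h1 : (s x)⁻¹ * s y ∈ N := QuotientGroup.eq.mp h
    have h2 := hNk h1
    rw [MonoidHom.mem_ker, map_mul, map_inv, hs, hs] at h2
    exact (inv_mul_eq_one.mp h2)
  obtain ⟨n, hn, θ, h1, h2, h3⟩ := hQ (F.image q) ε hε
  refine ⟨n, hn, fun t => θ (q t), ?_, ?_, ?_⟩
  · intro g hg h hh hgh
    have := h1 (q g) (mem_image_of_mem q hg) (q h) (mem_image_of_mem q hh)
      (by rw [hqm g hg h hh]; exact mem_image_of_mem q hgh)
    rwa [hqm g hg h hh] at this
  · intro h1F
    have := h2 (by rw [← hq1]; exact mem_image_of_mem q h1F)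
    show dH (θ (q 1)) 1 < ε
    rwa [hq1]
  · intro x hx y hy hxy
    exact h3 (q x) (mem_image_of_mem q hx) (q y) (mem_image_of_mem q hy) fun h => hxy (hqi x y h)

/-- A subgroup which maps onto the image of a perfect central extension is everything. -/
theorem eq_top_of_map {E T : Type} [Group E] [Group T] (π : E →* T)
    (hc : π.ker ≤ Subgroup.center E) (hp : commutator E = ⊤) (H : Subgroup E)
    (hH : H.map π = ⊤) : H = ⊤ := by
  rw [eq_top_iff, ← hp, commutator_def, Subgroup.commutator_le]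
  have key : ∀ x : E, ∃ h ∈ H, ∃ a ∈ Subgroup.center E, x = h * a := by
    intro x
    have h1 : π x ∈ H.map π := by rw [hH]; trivial
    obtain ⟨h, hh, hx⟩ := Subgroup.mem_map.mp h1
    refine ⟨h, hh, h⁻¹ * x, hc ?_, by simp⟩
    rw [MonoidHom.mem_ker, map_mul, map_inv, hx, inv_mul_cancel]
  intro x _ y _
  obtain ⟨h, hh, a, ha, rfl⟩ := key x
  obtain ⟨k, hk, b, hb, rfl⟩ := key y
  have ha' := Subgroup.mem_center_iff.mp ha
  have hb' := Subgroup.mem_center_iff.mp hb
  have : ⁅h * a, k * b⁆ = ⁅h, k⁆ := by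
    rw [commutatorElement_def, commutatorElement_def]
    have e1 : h * a * (k * b) = h * k * (a * b) := by
      rw [mul_assoc h a, ← mul_assoc a k, ← ha' k]; group
    have e2 : (h * a)⁻¹ * (k * b)⁻¹ = (a * b)⁻¹ * (h⁻¹ * k⁻¹) := by
      have h1 : (h * a)⁻¹ * (k * b)⁻¹ = ((k * b) * (h * a))⁻¹ := by group
      have h2 : (k * b) * (h * a) = (k * h) * (a * b) := by
        rw [mul_assoc k b, ← mul_assoc b h, ← hb' h, mul_assoc h b a, hb' a]; group
      rw [h1, h2]; group
    rw [mul_assoc, e2, e1]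
    group
  rw [this]
  rw [commutatorElement_def]
  exact mul_mem (mul_mem (mul_mem hh hk) (inv_mem hh)) (inv_mem hk)

end SFC
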