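import Pool.Agent.SFC.A5

open Finset
open scoped commutatorElement

namespace SFC

/-- The proper subgroups of the extension. -/
theorem ProperLocFin.ext {E T : Type} [Group E] [Group T] (hT : ProperLocFin T) (π : E →* T)
    (hc : π.ker ≤ Subgroup.center E) (ht : ∀ x ∈ π.ker, IsOfFinOrder x)
    (hp : commutator E = ⊤) : ProperLocFin E := by
  intro H hH K hKH hfg
  have hK : K ≠ ⊤ := fun h => hH (top_le_iff.mp (h ▸ hKH))
  have h1 : K.map π ≠ ⊤ := fun h => hK (eq_top_of_map π hc hp K h)
  have h2 : (K.map π).FG := by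
    obtain ⟨S, rfl⟩ := hfg
    classical
    exact ⟨S.image π, by rw [coe_image, MonoidHom.map_closure]⟩
  exact finite_of_central π hc ht K hfg (hT _ h1 _ le_rfl h2)

/-- Proper subgroups are sofic if they are locally finite. -/
theorem ProperLocFin.sofic {G : Type} [Group G] (hG : ProperLocFin G) (H : Subgroup G)
    (hH : H ≠ ⊤) : Sofic H := by
  apply sofic_of_locFin
  intro K hK
  have h1 : (K.map H.subtype) ≠ ⊤ := by
    intro h
    apply hH
    rw [eq_top_iff, ← h]
    exact Subgroup.map_subtype_le K
  have h2 : (K.map H.subtype).FG := by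
    obtain ⟨S, rfl⟩ := hK
    classical
    exact ⟨S.image H.subtype, by rw [coe_image, MonoidHom.map_closure]⟩
  have h3 := hG _ h1 _ le_rfl h2
  exact Finite.of_equiv _ (K.equivMapOfInjective H.subtype H.subtype_injective).toEquiv.symm

/-- Subgroups of sofic groups are sofic. -/
theorem Sofic.subgroup {G : Type} [Group G] (hG : Sofic G) (H : Subgroup G) : Sofic H := by
  classical
  intro F ε hε
  obtain ⟨n, hn, θ, h1, h2, h3⟩ := hG (F.image (Subtype.val : H → G)) ε hε
  refine ⟨n, hn, fun h => θ h, ?_, ?_, ?_⟩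
  · intro g hg h hh hgh
    exact h1 g (mem_image_of_mem _ hg) h (mem_image_of_mem _ hh) (mem_image_of_mem _ hgh)
  · intro h
    exact h2 (mem_image_of_mem (Subtype.val : H → G) h)
  · intro x hx y hy hxy
    exact h3 x (mem_image_of_mem _ hx) y (mem_image_of_mem _ hy) fun h => hxy (Subtype.ext h)

/-- A subgroup of a sofic subgroup is sofic. -/
theorem Sofic.of_le {G : Type} [Group G] {H K : Subgroup G} (hK : Sofic K) (h : H ≤ K) :
    Sofic H := by
  classical
  intro F ε hε
  obtain ⟨n, hn, θ, h1, h2, h3⟩ := hK (F.image (Subgroup.inclusion h)) ε hε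
  refine ⟨n, hn, fun x => θ (Subgroup.inclusion h x), ?_, ?_, ?_⟩
  · intro x hx y hy hxy
    have := h1 _ (mem_image_of_mem _ hx) _ (mem_image_of_mem _ hy)
      (by rw [← map_mul]; exact mem_image_of_mem _ hxy)
    rwa [← map_mul] at this
  · intro hF
    have := h2 (by rw [← map_one (Subgroup.inclusion h)]; exact mem_image_of_mem _ hF)
    show dH (θ (Subgroup.inclusion h 1)) 1 < ε
    rwa [map_one]
  · intro x hx y hy hxy
    exact h3 _ (mem_image_of_mem _ hx) _ (mem_image_of_mem _ hy) fun e =>
      hxy (Subgroup.inclusion_injective h e)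

/-- **Perfect central torsion extensions of periodic non-sofic groups in which the preimages of
the proper subgroups are sofic are periodic minimal non-sofic.** -/
theorem minimal_ext {E T : Type} [Group E] [Group T] (π : E →* T) (hπ : Function.Surjective π)
    (hns : ¬ Sofic T) (hper : ∀ t : T, IsOfFinOrder t)
    (hT : ∀ K : Subgroup T, K ≠ ⊤ → Sofic (K.comap π))
    (hc : π.ker ≤ Subgroup.center E) (ht : ∀ x ∈ π.ker, IsOfFinOrder x)
    (hp : commutator E = ⊤) : (∀ x : E, IsOfFinOrder x) ∧ MinimalNonSofic E := by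
  refine ⟨fun x => ?_, fun hE => hns (hE.central π hπ hc ht), fun H hH => ?_⟩
  · obtain ⟨n, hn, hx⟩ := isOfFinOrder_iff_pow_eq_one.mp (hper (π x))
    have h1 : x ^ n ∈ π.ker := by rw [MonoidHom.mem_ker, map_pow, hx]
    obtain ⟨m, hm, hy⟩ := isOfFinOrder_iff_pow_eq_one.mp (ht _ h1)
    exact isOfFinOrder_iff_pow_eq_one.mpr ⟨n * m, Nat.mul_pos hn hm, by rw [pow_mul, hy]⟩
  · exact (hT (H.map π) fun h => hH (eq_top_of_map π hc hp H h)).of_le (Subgroup.le_comap_map π H)

/-- The preimages are sofic if the proper subgroups are locally finite. -/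
theorem comap_sofic {E T : Type} [Group E] [Group T] (hT : ProperLocFin T) (π : E →* T)
    (hc : π.ker ≤ Subgroup.center E)
    (ht : ∀ x ∈ π.ker, IsOfFinOrder x) (K : Subgroup T) (hK : K ≠ ⊤) : Sofic (K.comap π) := by
  classical
  apply sofic_of_locFin
  intro L hL
  have h2 : ((L.map (K.comap π).subtype).map π).FG := by
    obtain ⟨S, rfl⟩ := hL
    exact ⟨(S.image (K.comap π).subtype).image π, by
      rw [coe_image, coe_image, MonoidHom.map_closure, MonoidHom.map_closure]⟩
  have h1 : (L.map (K.comap π).subtype).map π ≤ K := by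
    rw [Subgroup.map_le_iff_le_comap]
    exact Subgroup.map_subtype_le L
  have h3 : (L.map (K.comap π).subtype).FG := by
    obtain ⟨S, rfl⟩ := hL
    exact ⟨S.image (K.comap π).subtype, by rw [coe_image, MonoidHom.map_closure]⟩
  have h4 := finite_of_central π hc ht _ h3 (hT K hK _ h1 h2)
  exact Finite.of_equiv _
    (L.equivMapOfInjective (K.comap π).subtype (K.comap π).subtype_injective).toEquiv.symm

/-- A periodic non-sofic group with locally finite proper subgroups is perfect. -/
theorem perfect {T : Type} [Group T] (hns : ¬ Sofic T) (hper : ∀ t : T, IsOfFinOrder t)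
    (hT : ProperLocFin T) : commutator T = ⊤ := by
  by_contra hne
  apply hns
  apply sofic_of_locFin
  intro K hK
  by_cases hKt : K = ⊤
  · -- `T` is finitely generated, `T'` is locally finite of finite index
    subst hKt
    have hfgT : Group.FG T := ⟨hK⟩
    have habt : IsMulTorsion (Abelianization T) := by
      intro x
      obtain ⟨t, rfl⟩ := QuotientGroup.mk_surjective x
      obtain ⟨n, hn, hx⟩ := isOfFinOrder_iff_pow_eq_one.mp (hper t)
      refine isOfFinOrder_iff_pow_eq_one.mpr ⟨n, hn, ?_⟩
      have : ((t ^ n : T) : T ⧸ commutator T) = 1 := by rw [hx]; rfl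
      exact this
    have hfgA : Group.FG (Abelianization T) :=
      Group.fg_of_surjective (f := Abelianization.of) (QuotientGroup.mk_surjective)
    have hfA : Finite (Abelianization T) := CommGroup.finite_of_fg_isMulTorsion _ habt
    have hfA' : Finite (T ⧸ commutator T) := hfA
    have hidx : (commutator T).FiniteIndex := Subgroup.finiteIndex_of_finite_quotient
    have hfgC : Group.FG (commutator T) := Subgroup.fg_of_index_ne_zero _
    have hfC : Finite (commutator T) := hT _ hne _ le_rfl ((Group.fg_iff_subgroup_fg _).mp hfgC)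
    have hfT : Finite T := Finite.of_subgroup_quotient (commutator T)
    infer_instance
  · exact hT K hKt K le_rfl hK

/-- A non-split extension with kernel of prime order of a perfect group is perfect. -/
theorem perfect_ext {E T : Type} [Group E] [Group T] (π : E →* T) (hπ : Function.Surjective π)
    (hT : commutator T = ⊤) {q : ℕ} (hq : q.Prime) (hcard : Nat.card π.ker = q)
    (hns : ¬ ∃ σ : T →* E, π.comp σ = MonoidHom.id T) : commutator E = ⊤ := by
  have hmap : (commutator E).map π = ⊤ := by
    rw [commutator_def, Subgroup.map_commutator, ← MonoidHom.range_eq_map,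
      MonoidHom.range_eq_top.mpr hπ, ← commutator_def, hT]
  -- the intersection with the kernel
  have hint : π.ker ≤ commutator E := by
    by_contra hle
    have h1 : (commutator E ⊓ π.ker) = ⊥ := by
      have h2 : Nat.card ((commutator E).subgroupOf π.ker) ∣ q := by
        rw [← hcard]; exact Subgroup.card_subgroup_dvd_card _
      rcases (Nat.dvd_prime hq).mp h2 with h3 | h3
      · have h4 : (commutator E).subgroupOf π.ker = ⊥ := by
          apply Subgroup.eq_bot_of_card_eq; exact h3
        rw [Subgroup.subgroupOf_eq_bot] at h4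
        rwa [disjoint_iff] at h4
      · exfalso
        apply hle
        have hfin : Finite π.ker := Nat.finite_of_card_ne_zero (by rw [hcard]; exact hq.ne_zero)
        have h4 : (commutator E).subgroupOf π.ker = ⊤ := by
          apply Subgroup.eq_top_of_card_eq
          rw [h3, hcard]
        rwa [Subgroup.subgroupOf_eq_top] at h4
    apply hns
    let ψ : commutator E →* T := π.comp (commutator E).subtype
    have hψi : Function.Injective ψ := by
      rw [injective_iff_map_eq_one]
      intro x hx
      have : (x : E) ∈ commutator E ⊓ π.ker := ⟨x.2, hx⟩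
      rw [h1, Subgroup.mem_bot] at this
      exact Subtype.ext this
    have hψs : Function.Surjective ψ := by
      intro t
      have : t ∈ (commutator E).map π := by rw [hmap]; trivial
      obtain ⟨x, hx, rfl⟩ := Subgroup.mem_map.mp this
      exact ⟨⟨x, hx⟩, rfl⟩
    let e := MulEquiv.ofBijective ψ ⟨hψi, hψs⟩
    refine ⟨(commutator E).subtype.comp e.symm.toMonoidHom, ?_⟩
    ext t
    exact e.apply_symm_apply t
  rw [eq_top_iff]
  intro x _
  have h1 : π x ∈ (commutator E).map π := by rw [hmap]; trivial
  obtain ⟨y, hy, hyx⟩ := Subgroup.mem_map.mp h1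
  have h2 : y⁻¹ * x ∈ commutator E := hint (by rw [MonoidHom.mem_ker, map_mul, map_inv, hyx, inv_mul_cancel])
  have := mul_mem hy h2
  rwa [mul_inv_cancel_left] at this

/-- **`Q1` implies soficity.** -/
theorem sofic_of_Q1 (hQ : Q1) {E T : Type} [Group E] [Group T] (π : E →* T)
    (hπ : Function.Surjective π) {q : ℕ} (hq : q.Prime) (hper : ∀ t : T, IsOfFinOrder t)
    (hne : ∃ t : T, t ^ q ≠ 1) (hT : ProperLocFin T) (hc : π.ker ≤ Subgroup.center E)
    (hcard : Nat.card π.ker = q) (hsplit : ¬ ∃ σ : T →* E, π.comp σ = MonoidHom.id T) :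
    Sofic T := by
  by_contra hns
  have hfin : Finite π.ker := Nat.finite_of_card_ne_zero (by rw [hcard]; exact hq.ne_zero)
  have ht : ∀ x ∈ π.ker, IsOfFinOrder x := by
    intro x hx
    have h1 : IsOfFinOrder (⟨x, hx⟩ : π.ker) := isOfFinOrder_of_finite _
    obtain ⟨n, hn, h2⟩ := isOfFinOrder_iff_pow_eq_one.mp h1
    exact isOfFinOrder_iff_pow_eq_one.mpr ⟨n, hn, congrArg Subtype.val h2⟩
  have hE := perfect_ext π hπ (perfect hns hper hT) hq hcard hsplit
  obtain ⟨h1, h2⟩ := minimal_ext π hπ hns hper (comap_sofic hT π hc ht) hc ht hE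
  obtain ⟨r, hr, h3⟩ := hQ E h1 h2
  have hrq : r = q := by
    have : Fact q.Prime := ⟨hq⟩
    obtain ⟨x, hx⟩ := exists_prime_orderOf_dvd_card' (G := π.ker) q (by rw [hcard])
    have h4 : orderOf x ∣ r := orderOf_dvd_of_pow_eq_one (Subtype.ext (h3 x))
    rw [hx] at h4
    exact ((Nat.prime_dvd_prime_iff_eq hq hr).mp h4).symm
  obtain ⟨t, ht2⟩ := hne
  obtain ⟨x, rfl⟩ := hπ t
  apply ht2
  rw [← hrq, ← map_pow, h3, map_one]

end SFC
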