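import Mathlib

open Finset

namespace SFC

/-- The normalized Hamming distance on `S_n`. -/
noncomputable def dH {n : ℕ} (σ τ : Equiv.Perm (Fin n)) : ℝ :=
  ((univ.filter fun i => σ i ≠ τ i).card : ℝ) / n

/-- Sofic groups. -/
def Sofic (G : Type) [Group G] : Prop :=
  ∀ (F : Finset G) (ε : ℝ), 0 < ε → ∃ n : ℕ, 0 < n ∧ ∃ θ : G → Equiv.Perm (Fin n),
    (∀ g ∈ F, ∀ h ∈ F, g * h ∈ F → dH (θ g * θ h) (θ (g * h)) < ε) ∧
    (1 ∈ F → dH (θ 1) 1 < ε) ∧
    ∀ x ∈ F, ∀ y ∈ F, x ≠ y → 1 / 4 ≤ dH (θ x) (θ y)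

/-- Minimal non-sofic groups: not sofic, but all proper subgroups are sofic. -/
def MinimalNonSofic (G : Type) [Group G] : Prop :=
  ¬ Sofic G ∧ ∀ H : Subgroup G, H ≠ ⊤ → Sofic H

/-- The statement of `Q1`: every periodic minimal non-sofic group has prime exponent. -/
def Q1 : Prop := ∀ (G : Type) [Group G], (∀ g : G, IsOfFinOrder g) → MinimalNonSofic G →
  ∃ p : ℕ, p.Prime ∧ ∀ g : G, g ^ p = 1

/-- Every proper subgroup is locally finite (every finitely generated subgroup of it is finite). -/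
def ProperLocFin (G : Type) [Group G] : Prop :=
  ∀ H : Subgroup G, H ≠ ⊤ → ∀ K : Subgroup G, K ≤ H → K.FG → Finite K

/-- `w` is a good point for the maps `f` and the finite set `F`. -/
def Good {G W : Type} [Group G] (f : G → W → W) (F : Finset G) (w : W) : Prop :=
  (∀ g ∈ F, ∀ h ∈ F, f g (f h w) = f (g * h) w) ∧ f 1 w = w ∧
    ∀ x ∈ F, ∀ y ∈ F, x ≠ y → f x w ≠ f y w

end SFC
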